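import Mathlib
import Pool.Agent.Q209.Conv.Pow

open Finset Filter Topology

namespace Pool.Agent.Results.MP_7e070a_pr.NoCutoff

noncomputable section

/-- The `t`-fold convolution power `μ^{*t}` of a function on `ℤ/n`: `μ^{*0}` is the point mass at
`0` and `μ^{*(t+1)}(y) = ∑_x μ^{*t}(x) μ(y - x)`. -/
def convPow {n : ℕ} [NeZero n] (μ : ZMod n → ℝ) : ℕ → ZMod n → ℝ
  | 0 => fun y => if y = 0 then 1 else 0
  | t + 1 => fun y => ∑ x, convPow μ t x * μ (y - x)

/-- Total variation distance of `μ^{*t}` to the uniform law on `ℤ/n`. -/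
def dTV {n : ℕ} [NeZero n] (μ : ZMod n → ℝ) (t : ℕ) : ℝ :=
  (1 / 2 : ℝ) * ∑ y, |convPow μ t y - 1 / (n : ℝ)|

/-- `T_mix(ε) = min {t : ‖μ^{*t} - U‖_TV ≤ ε}`. -/
def tmix {n : ℕ} [NeZero n] (μ : ZMod n → ℝ) (ε : ℝ) : ℕ :=
  sInf {t : ℕ | dTV μ t ≤ ε}

/-- The eigenvalue `μ̂(j) = ∑_x μ(x) cos(2π j x / n)` of the convolution walk. -/
def fourier {n : ℕ} [NeZero n] (μ : ZMod n → ℝ) (j : ZMod n) : ℝ :=
  ∑ x, μ x * Real.cos (2 * Real.pi * ((j.val : ℝ) * (x.val : ℝ)) / (n : ℝ))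

/-- `λ_* = max_{j ≠ 0} |μ̂(j)|`. -/
def lamStar {n : ℕ} [NeZero n] (μ : ZMod n → ℝ) : ℝ :=
  ⨆ j : {j : ZMod n // j ≠ 0}, |fourier μ j|

/-- `T_rel = 1 / (1 - λ_*)`. -/
def trel {n : ℕ} [NeZero n] (μ : ZMod n → ℝ) : ℝ := 1 / (1 - lamStar μ)

theorem convPow_eq {n : ℕ} [NeZero n] (μ : ZMod n → ℝ) (t : ℕ) (y : ZMod n) :
    convPow μ t y = ((Matrix.of fun x y : ZMod n => μ (y - x)) ^ t) 0 y := by
  induction t generalizing y with
  | zero =>
    simp only [convPow, pow_zero, Matrix.one_apply]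
    congr 1
    rw [eq_iff_iff, eq_comm]
  | succ t ih =>
    rw [pow_succ, Matrix.mul_apply]
    simp only [convPow, Matrix.of_apply, ih]

/-- There are `n_k → ∞` and symmetric probability measures `μ_k` on `ℤ/n_k`, with `μ_k(0) ≥ 1/2`
and with support generating `ℤ/n_k` (so the walk is irreducible and aperiodic; some convolution
power is positive everywhere), constant on the nonzero points of their support, which satisfy the
product condition `T_mix(1/4) / T_rel → ∞` but have no total variation cutoff. -/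
theorem result :
    ∃ (N : ℕ → ℕ) (_ : ∀ k, NeZero (N k)) (μ : ∀ k, ZMod (N k) → ℝ),
      Tendsto N atTop atTop ∧
      (∀ k, (∀ x, 0 ≤ μ k x) ∧ ∑ x, μ k x = 1) ∧
      (∀ k x, μ k (-x) = μ k x) ∧
      (∀ k, AddSubgroup.closure {x : ZMod (N k) | μ k x ≠ 0} = ⊤) ∧
      (∀ k, 1 / 2 ≤ μ k 0) ∧
      (∀ k x y, x ≠ 0 → y ≠ 0 → μ k x ≠ 0 → μ k y ≠ 0 → μ k x = μ k y) ∧
      (∀ k, ∃ t, ∀ y, 0 < convPow (μ k) t y) ∧
      Tendsto (fun k => (tmix (μ k) (1 / 4) : ℝ) / trel (μ k)) atTop atTop ∧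
      ¬ (∀ ε : ℝ, 0 < ε → ε < 1 / 2 →
        Tendsto (fun k => (tmix (μ k) ε : ℝ) / (tmix (μ k) (1 - ε) : ℝ)) atTop (𝓝 1)) := by
  choose N hN S hNn hneg hne hgen hfour h1 h2 h3 hpos using Pool.Agent.Q209.Conv.facts
  have hd : ∀ k t, dTV (Q209.Conv.lazyMu (S k)) t = (1 / 2 : ℝ) * ∑ y : ZMod (N k),
      |((Matrix.of fun x y : ZMod (N k) => Q209.Conv.lazyMu (S k) (y - x)) ^ t) 0 y -
        1 / (N k : ℝ)| := by
    intro k t
    simp only [dTV, convPow_eq]
  have h1' : ∀ k, ∀ t ≤ k + 64, 1 / 2 < dTV (Q209.Conv.lazyMu (S k)) t := by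
    intro k t ht; rw [hd]; exact h1 k t ht
  have h2' : ∀ k, dTV (Q209.Conv.lazyMu (S k)) (2 * ((k + 64) / 8) + 1) ≤ 1 - 1 / 2000 := by
    intro k; rw [hd]; exact h2 k
  have h3' : ∀ k ε, 0 < ε → ∃ t, dTV (Q209.Conv.lazyMu (S k)) t ≤ ε := by
    intro k ε hε
    obtain ⟨t, ht⟩ := h3 k ε hε
    exact ⟨t, by rw [hd]; exact ht⟩
  refine ⟨N, hN, fun k => Q209.Conv.lazyMu (S k), ?_, ?_, ?_, ?_, ?_, ?_, ?_, ?_, ?_⟩
  · refine tendsto_atTop_mono (fun k => ?_) tendsto_id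
    have := hNn k
    simp only [id]
    omega
  · exact fun k => ⟨Q209.Conv.lazyMu_nonneg (S k), Q209.Conv.lazyMu_sum (S k) (hne k)⟩
  · exact fun k x => Q209.Conv.lazyMu_symm (S k) (hneg k) x
  · intro k
    rw [eq_top_iff, ← hgen k]
    apply AddSubgroup.closure_mono
    intro x hx
    have hc : (0 : ℝ) < (S k).card := by exact_mod_cast (hne k).card_pos
    simp only [Set.mem_ofPred_eq, Q209.Conv.lazyMu]
    have hx' : x ∈ S k := hx
    rw [if_pos hx']
    have : (0 : ℝ) < 1 / (2 * ((S k).card : ℝ)) := by positivity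
    split_ifs <;> linarith
  · intro k
    have hc : (0 : ℝ) < (S k).card := by exact_mod_cast (hne k).card_pos
    simp only [Q209.Conv.lazyMu, if_true]
    have : (0 : ℝ) < 1 / (2 * ((S k).card : ℝ)) := by positivity
    split_ifs <;> linarith
  · intro k x y hx hy hmx hmy
    simp only [Q209.Conv.lazyMu, if_neg hx, if_neg hy, zero_add] at hmx hmy ⊢
    have h1 : x ∈ S k := by
      by_contra h
      exact hmx (if_neg h)
    have h2 : y ∈ S k := by
      by_contra h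
      exact hmy (if_neg h)
    rw [if_pos h1, if_pos h2]
  · intro k
    obtain ⟨t, ht⟩ := hpos k
    exact ⟨t, fun y => by rw [convPow_eq]; exact ht y⟩
  · apply Helper394.tendsto_div_of
    · intro k
      exact Helper394.sInf_gt _ (k + 64) _ (by norm_num) (h1' k) (h3' k _ (by norm_num))
    · intro k
      have h5 : lamStar (Q209.Conv.lazyMu (S k)) ≤ 7 / 8 := by
        apply Real.iSup_le _ (by norm_num)
        rintro ⟨j, hj⟩
        have := hfour k j hj
        rw [abs_le]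
        constructor
        · simp only [fourier]; linarith [this.1]
        · simp only [fourier]; linarith [this.2]
      have h6 : 0 < 1 - lamStar (Q209.Conv.lazyMu (S k)) := by linarith
      refine ⟨one_div_pos.mpr h6, ?_⟩
      rw [trel, div_le_iff₀ h6]
      linarith
  · intro hcut
    exact Helper394.no_cutoff_of (fun k => dTV (Q209.Conv.lazyMu (S k))) h1' h2' h3'
      (hcut (1 / 2000) (by norm_num) (by norm_num))

end

end Pool.Agent.Results.MP_7e070a_pr.NoCutoff
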